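import Mathlib
import Pool.Agent.helper85.PG.Basic
import Pool.Agent.helper85.PG.Spec5

set_option autoImplicit false

namespace Pool.Agent.helper85.PG

open Module Pointwise

theorem LVG_comb {α β : Type*} [DecidableEq α] [DecidableEq β] (Y : Finset α) (B : Finset β)
    (Bf : α → Finset β) (u : ℝ) (hu : 0 ≤ u) (n : ℕ) (hsub : ∀ y ∈ Y, Bf y ⊆ B)
    (hcard : ∀ y ∈ Y, u ≤ ((Bf y).card : ℝ)) :
    ((Y.card : ℝ) * u) ^ (n + 1) / (B.card : ℝ) ^ n ≤
      ∑ ρ ∈ Fintype.piFinset (fun _ : Fin (n + 1) => Y),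
        ((B.filter fun b => ∀ i, b ∈ Bf (ρ i)).card : ℝ) := by
  have h1 : ∑ ρ ∈ Fintype.piFinset (fun _ : Fin (n + 1) => Y),
        ((B.filter fun b => ∀ i, b ∈ Bf (ρ i)).card : ℝ) =
      ∑ b ∈ B, (((Y.filter fun y => b ∈ Bf y).card : ℝ)) ^ (n + 1) := by
    have h2 : ∀ ρ ∈ Fintype.piFinset (fun _ : Fin (n + 1) => Y),
        ((B.filter fun b => ∀ i, b ∈ Bf (ρ i)).card : ℝ) =
          ∑ b ∈ B, if (∀ i, b ∈ Bf (ρ i)) then (1 : ℝ) else 0 := by
      intro ρ _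
      rw [Finset.sum_boole]
    rw [Finset.sum_congr rfl h2, Finset.sum_comm]
    apply Finset.sum_congr rfl
    intro b _
    rw [Finset.sum_boole]
    have h3 : (Fintype.piFinset (fun _ : Fin (n + 1) => Y)).filter (fun ρ => ∀ i, b ∈ Bf (ρ i)) =
        Fintype.piFinset (fun _ : Fin (n + 1) => Y.filter fun y => b ∈ Bf y) := by
      ext ρ
      rw [Finset.mem_filter, Fintype.mem_piFinset, Fintype.mem_piFinset]
      constructor
      · intro h i
        exact Finset.mem_filter.2 ⟨h.1 i, h.2 i⟩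
      · intro h
        exact ⟨fun i => (Finset.mem_filter.1 (h i)).1, fun i => (Finset.mem_filter.1 (h i)).2⟩
    rw [h3, Fintype.card_piFinset_const, Nat.cast_pow]
  have h4 : (Y.card : ℝ) * u ≤ ∑ b ∈ B, ((Y.filter fun y => b ∈ Bf y).card : ℝ) := by
    have h5 : ∑ b ∈ B, ((Y.filter fun y => b ∈ Bf y).card : ℝ) =
        ∑ y ∈ Y, ((Bf y).card : ℝ) := by
      have h6 : ∀ b ∈ B, ((Y.filter fun y => b ∈ Bf y).card : ℝ) =
          ∑ y ∈ Y, if b ∈ Bf y then (1 : ℝ) else 0 := by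
        intro b _
        rw [Finset.sum_boole]
      rw [Finset.sum_congr rfl h6, Finset.sum_comm]
      apply Finset.sum_congr rfl
      intro y hy
      rw [Finset.sum_boole]
      have h7 : B.filter (fun b => b ∈ Bf y) = Bf y := by
        ext b
        rw [Finset.mem_filter]
        exact ⟨fun h => h.2, fun h => ⟨hsub y hy h, h⟩⟩
      rw [h7]
    rw [h5]
    calc (Y.card : ℝ) * u = ∑ y ∈ Y, u := by rw [Finset.sum_const, nsmul_eq_mul]
      _ ≤ _ := Finset.sum_le_sum hcard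
  rw [h1]
  refine le_trans ?_ (pow_sum_div_card_le_sum_pow (fun b _ => Nat.cast_nonneg _) n)
  apply div_le_div_of_nonneg_right _ (pow_nonneg (Nat.cast_nonneg _) n)
  exact pow_le_pow_left₀ (mul_nonneg (Nat.cast_nonneg _) hu) h4 _

theorem LVG_tuple (hPKC : PKC_stmt) (hDIL : DIL_stmt) (hCVR : CVR_stmt) {p : ℕ} [Fact p.Prime]
    (d k : ℕ) (hk : 0 < k) (P : ℝ → Finset (ZMod p)) (hP : IsSys p d P) (B : Finset (ZMod p))
    (u : ℝ) (hB : ∀ t : ZMod p, ((B.filter fun b => b - t ∈ P (1 / 2)).card : ℝ) ≤ u)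
    (ρ : Fin k → ZMod p) (hρ : ∀ i, ρ i ≠ 0) (I : Finset (ZMod p)) (hIB : I ⊆ B)
    (hI : ∀ i, ∀ b ∈ I, ∀ b' ∈ I, b - b' ∈ P 4 + dil (ρ i) (P 4)) :
    (I.card : ℝ) * ((P 1).card : ℝ) ≤
      9 ^ d * 5 ^ (2 * d * k) * ((Zk P ρ 1).card : ℝ) * u := by
  have hu : 0 ≤ u := le_trans (Nat.cast_nonneg _) (hB 0)
  have hZ : IsSys p (2 * d * k) (Zk P ρ) := hDIL.2.2 p d k P ρ hk hρ hP
  rcases Finset.eq_empty_or_nonempty I with hI0 | ⟨b₀, hb₀⟩
  · rw [hI0, Finset.card_empty, Nat.cast_zero, zero_mul]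
    positivity
  have hV : (P (1 / 4)).Nonempty := ⟨0, hP.zero_mem (by norm_num)⟩
  obtain ⟨X, hXA, _, hcov, hXV⟩ := hCVR p (Zk P ρ 1) (P (1 / 4)) hV
  -- the sumset
  have h1 : Zk P ρ 1 + P (1 / 4) ⊆ Zk P ρ 2 := by
    intro y hy
    obtain ⟨z, hz, v, hv, rfl⟩ := Finset.mem_add.1 hy
    refine Finset.mem_filter.2 ⟨Finset.mem_univ _, fun i => ?_⟩
    have hz' := (Finset.mem_filter.1 hz).2 i
    obtain ⟨a, ha, c, hc, rfl⟩ := Finset.mem_add.1 hz'
    refine Finset.mem_add.2 ⟨a + v, ?_, c, ?_, ?_⟩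
    · exact hP.mono (by norm_num) (hP.add_mem ha hv)
    · obtain ⟨e, he, rfl⟩ := Finset.mem_image.1 hc
      exact Finset.mem_image.2 ⟨e, hP.mono (by norm_num) he, rfl⟩
    · ring
  have h2 : ((X.card : ℝ)) * ((P (1 / 4)).card : ℝ) ≤ ((Zk P ρ 2).card : ℝ) := by
    have h3 := hXV.trans (Finset.card_le_card h1)
    exact_mod_cast h3
  have h3 : ((Zk P ρ 2).card : ℝ) ≤ 5 ^ (2 * d * k) * ((Zk P ρ 1).card : ℝ) := by
    have h4 := ((hPKC.2.2 p (2 * d * k) (Zk P ρ) hZ 2 1 (by norm_num) (by norm_num)).1)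
    have h5 : (1 + 2 * 2 / 1 : ℝ) = 5 := by norm_num
    rw [h5] at h4
    exact h4
  have h4 : ((P 1).card : ℝ) ≤ 9 ^ d * ((P (1 / 4)).card : ℝ) := by
    have h5 := ((hPKC.2.2 p d P hP 1 (1 / 4) (by norm_num) (by norm_num)).1)
    have h6 : (1 + 2 * 1 / (1 / 4) : ℝ) = 9 := by norm_num
    rw [h6] at h5
    exact h5
  -- the covering
  have h5 : (I.card : ℝ) ≤ (X.card : ℝ) * u := by
    have h6 : I ⊆ X.biUnion fun x => B.filter fun b => b - (b₀ + x) ∈ P (1 / 2) := by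
      intro b hb
      have h7 : b - b₀ ∈ Zk P ρ 1 := by
        refine Finset.mem_filter.2 ⟨Finset.mem_univ _, fun i => ?_⟩
        rw [mul_one]
        exact hI i b hb b₀ hb₀
      obtain ⟨x, hx, v, hv, v', hv', hxv⟩ := hcov _ h7
      refine Finset.mem_biUnion.2 ⟨x, hx, Finset.mem_filter.2 ⟨hIB hb, ?_⟩⟩
      have h8 : b - (b₀ + x) = v' - v := by linear_combination hxv
      rw [h8]
      exact hP.mono (by norm_num) (hP.sub_mem hv' hv)
    calc (I.card : ℝ) ≤ ((X.biUnion fun x => B.filter fun b => b - (b₀ + x) ∈ P (1 / 2)).card : ℝ) := by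
          exact_mod_cast Finset.card_le_card h6
      _ ≤ ∑ x ∈ X, ((B.filter fun b => b - (b₀ + x) ∈ P (1 / 2)).card : ℝ) := by
          exact_mod_cast Finset.card_biUnion_le
      _ ≤ ∑ x ∈ X, u := Finset.sum_le_sum fun x _ => hB _
      _ = (X.card : ℝ) * u := by rw [Finset.sum_const, nsmul_eq_mul]
  calc (I.card : ℝ) * ((P 1).card : ℝ)
      ≤ ((X.card : ℝ) * u) * (9 ^ d * ((P (1 / 4)).card : ℝ)) :=
        mul_le_mul h5 h4 (Nat.cast_nonneg _) (mul_nonneg (Nat.cast_nonneg _) hu)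
    _ = 9 ^ d * ((X.card : ℝ) * ((P (1 / 4)).card : ℝ)) * u := by ring
    _ ≤ 9 ^ d * (5 ^ (2 * d * k) * ((Zk P ρ 1).card : ℝ)) * u := by
        apply mul_le_mul_of_nonneg_right _ hu
        exact mul_le_mul_of_nonneg_left (h2.trans h3) (by positivity)
    _ = _ := by ring

/-- final inequality -/
theorem LVG_fin (x N M y L C C₁ σ ω ζ κ a : ℝ) (n : ℕ) (hx : 1 ≤ x) (hN : 1 ≤ N) (hNx : N ≤ x)
    (hM : 1 ≤ M) (hL : 2 ≤ L) (hC : 1 ≤ C) (hC₁ : 1 ≤ C₁) (hσ : 0 < σ) (hω : ω = σ / 16)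
    (hκ : κ = ω / 4) (hζ : ζ = ω / (4 * (n + 5))) (ha : 0 ≤ a) (ha4 : a ≤ σ / 4)
    (hbig : 2 * C₁ * C < x ^ ω) (hNM : N ≤ x ^ ζ * M) (hy : x ^ (-ζ) * (N / L) ^ 2 < y)
    (T G D : ℝ) (hG : 0 ≤ G)
    (hT1 : (y * (x ^ (-ζ) * M)) ^ (n + 1) / M ^ n ≤ T)
    (hT2 : T ≤ y ^ (n + 1) * D + M * G)
    (hG2 : G ≤ C * x ^ (κ - 2 * ω) * (N / L) ^ 2 * y ^ n)
    (hD : D * N ≤ C₁ * (C * N * (N / L) ^ a * x ^ (2 * ω)) * (x ^ (-σ) * N)) : False := by
  have hx0 : 0 < x := by linarith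
  have hN0 : 0 < N := by linarith
  have hM0 : 0 < M := by linarith
  have hL0 : 0 < L := by linarith
  have hn0 : (0 : ℝ) ≤ n := Nat.cast_nonneg n
  have hω0 : 0 < ω := by rw [hω]; positivity
  have hζ0 : 0 < ζ := by rw [hζ]; positivity
  have hζn : (n + 5) * ζ = ω / 4 := by
    rw [hζ]
    field_simp
  have hζn2 : (n + 2) * ζ ≤ ω / 4 := by nlinarith
  have hy0 : 0 < y := lt_of_le_of_lt (by positivity) hy
  -- the bad tuples
  have hNL : (N / L) ^ 2 ≤ x ^ ζ * y := by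
    have h1 : x ^ ζ * (x ^ (-ζ) * (N / L) ^ 2) = (N / L) ^ 2 := by
      rw [← mul_assoc, ← Real.rpow_add hx0, add_neg_cancel, Real.rpow_zero, one_mul]
    rw [← h1]
    exact mul_le_mul_of_nonneg_left hy.le (by positivity)
  have hbad : M * G ≤ M * y ^ (n + 1) * (C * x ^ (κ - 2 * ω + ζ)) := by
    calc M * G ≤ M * (C * x ^ (κ - 2 * ω) * (N / L) ^ 2 * y ^ n) :=
          mul_le_mul_of_nonneg_left hG2 hM0.le
      _ ≤ M * (C * x ^ (κ - 2 * ω) * (x ^ ζ * y) * y ^ n) := by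
          apply mul_le_mul_of_nonneg_left _ hM0.le
          apply mul_le_mul_of_nonneg_right _ (by positivity)
          exact mul_le_mul_of_nonneg_left hNL (by positivity)
      _ = M * y ^ (n + 1) * (C * x ^ (κ - 2 * ω + ζ)) := by
          rw [Real.rpow_add hx0 (κ - 2 * ω) ζ]
          ring
  -- the good tuples
  have hNLa : (N / L) ^ a ≤ x ^ (σ / 4) := by
    calc (N / L) ^ a ≤ x ^ a := by
          apply Real.rpow_le_rpow (by positivity) _ ha
          calc N / L ≤ N := div_le_self hN0.le (by linarith)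
            _ ≤ x := hNx
      _ ≤ x ^ (σ / 4) := Real.rpow_le_rpow_of_exponent_le hx ha4
  have hD1 : D ≤ C₁ * C * N * x ^ (σ / 4 + 2 * ω - σ) := by
    have h1 : D * N ≤ (C₁ * C * N * x ^ (σ / 4 + 2 * ω - σ)) * N := by
      calc D * N ≤ C₁ * (C * N * (N / L) ^ a * x ^ (2 * ω)) * (x ^ (-σ) * N) := hD
        _ ≤ C₁ * (C * N * x ^ (σ / 4) * x ^ (2 * ω)) * (x ^ (-σ) * N) := by
            apply mul_le_mul_of_nonneg_right _ (by positivity)
            apply mul_le_mul_of_nonneg_left _ (by positivity)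
            apply mul_le_mul_of_nonneg_right _ (by positivity)
            exact mul_le_mul_of_nonneg_left hNLa (by positivity)
        _ = (C₁ * C * N * x ^ (σ / 4 + 2 * ω - σ)) * N := by
            rw [sub_eq_add_neg, Real.rpow_add hx0, Real.rpow_add hx0]
            ring
    exact le_of_mul_le_mul_right h1 hN0
  have hD2 : D ≤ M * (C₁ * C * x ^ (σ / 4 + 2 * ω - σ + ζ)) := by
    calc D ≤ C₁ * C * N * x ^ (σ / 4 + 2 * ω - σ) := hD1
      _ ≤ C₁ * C * (x ^ ζ * M) * x ^ (σ / 4 + 2 * ω - σ) := by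
          apply mul_le_mul_of_nonneg_right _ (by positivity)
          exact mul_le_mul_of_nonneg_left hNM (by positivity)
      _ = M * (C₁ * C * x ^ (σ / 4 + 2 * ω - σ + ζ)) := by
          rw [Real.rpow_add hx0 (σ / 4 + 2 * ω - σ) ζ]
          ring
  have hyn : 0 < y ^ (n + 1) := pow_pos hy0 _
  have hLHS : (y * (x ^ (-ζ) * M)) ^ (n + 1) / M ^ n =
      M * y ^ (n + 1) * x ^ (-((n + 1) * ζ)) := by
    have h1 : (x ^ (-ζ)) ^ (n + 1) = x ^ (-((n + 1) * ζ)) := by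
      rw [← Real.rpow_natCast, ← Real.rpow_mul hx0.le]
      congr 1
      push_cast
      ring
    rw [mul_pow, mul_pow, h1, pow_succ M n]
    field_simp
  have h1 : M * y ^ (n + 1) * x ^ (-((n + 1) * ζ)) ≤
      M * y ^ (n + 1) * (C₁ * C * x ^ (σ / 4 + 2 * ω - σ + ζ) + C * x ^ (κ - 2 * ω + ζ)) := by
    rw [← hLHS]
    calc (y * (x ^ (-ζ) * M)) ^ (n + 1) / M ^ n ≤ T := hT1
      _ ≤ y ^ (n + 1) * D + M * G := hT2
      _ ≤ y ^ (n + 1) * (M * (C₁ * C * x ^ (σ / 4 + 2 * ω - σ + ζ))) +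
          M * y ^ (n + 1) * (C * x ^ (κ - 2 * ω + ζ)) :=
          add_le_add (mul_le_mul_of_nonneg_left hD2 hyn.le) hbad
      _ = _ := by ring
  have h2 : x ^ (-((n + 1) * ζ)) ≤
      C₁ * C * x ^ (σ / 4 + 2 * ω - σ + ζ) + C * x ^ (κ - 2 * ω + ζ) :=
    le_of_mul_le_mul_left h1 (by positivity)
  have h3 : x ^ (σ / 4 + 2 * ω - σ + ζ) ≤ x ^ (-((n + 1) * ζ) - ω) := by
    apply Real.rpow_le_rpow_of_exponent_le hx
    have : σ = 16 * ω := by rw [hω]; ring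
    rw [this]
    linarith
  have h4 : x ^ (κ - 2 * ω + ζ) ≤ x ^ (-((n + 1) * ζ) - ω) := by
    apply Real.rpow_le_rpow_of_exponent_le hx
    rw [hκ]
    linarith
  have h5 : x ^ (-((n + 1) * ζ)) ≤ 2 * C₁ * C * x ^ (-((n + 1) * ζ) - ω) := by
    calc x ^ (-((n + 1) * ζ)) ≤
        C₁ * C * x ^ (σ / 4 + 2 * ω - σ + ζ) + C * x ^ (κ - 2 * ω + ζ) := h2
      _ ≤ C₁ * C * x ^ (-((n + 1) * ζ) - ω) + C₁ * C * x ^ (-((n + 1) * ζ) - ω) := by
          apply add_le_add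
          · exact mul_le_mul_of_nonneg_left h3 (by positivity)
          · calc C * x ^ (κ - 2 * ω + ζ) ≤ C * x ^ (-((n + 1) * ζ) - ω) :=
                  mul_le_mul_of_nonneg_left h4 (by positivity)
              _ ≤ C₁ * C * x ^ (-((n + 1) * ζ) - ω) := by
                  apply mul_le_mul_of_nonneg_right _ (by positivity)
                  calc C = 1 * C := (one_mul C).symm
                    _ ≤ C₁ * C := mul_le_mul_of_nonneg_right hC₁ (by linarith)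
      _ = _ := by ring
  have h6 : x ^ (-((n + 1) * ζ)) = x ^ ω * x ^ (-((n + 1) * ζ) - ω) := by
    rw [← Real.rpow_add hx0]
    congr 1
    ring
  rw [h6] at h5
  have h7 : x ^ ω ≤ 2 * C₁ * C := le_of_mul_le_mul_right h5 (Real.rpow_pos_of_pos hx0 _)
  linarith

theorem LVG (hPKC : PKC_stmt) (hDIL : DIL_stmt) (hCVR : CVR_stmt) (hZIT : ZIT_stmt) : LVG_stmt := by
  intro d σ hσ
  obtain ⟨n, hn⟩ := exists_pow_lt_of_lt_one (show (0 : ℝ) < σ / 4 by positivity)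
    (show (1 / 2 : ℝ) < 1 by norm_num)
  have hω0 : 0 < σ / 16 := by positivity
  obtain ⟨C, p₁, hC, hZ⟩ := hZIT d (n + 1) (σ / 16 / 4) (σ / 16) (Nat.succ_pos n)
    (by positivity) hω0
  set C₁ : ℝ := 9 ^ d * 5 ^ (2 * d * (n + 1)) with hC₁
  have hC₁1 : 1 ≤ C₁ := by
    rw [hC₁]
    exact one_le_mul_of_one_le_of_one_le (one_le_pow₀ (by norm_num)) (one_le_pow₀ (by norm_num))
  obtain ⟨p₂, hp₂⟩ := exists_nat_gt ((2 * C₁ * C) ^ (1 / (σ / 16)))
  set ζ : ℝ := σ / 16 / (4 * (n + 5)) with hζ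
  have hn0 : (0 : ℝ) ≤ n := Nat.cast_nonneg n
  refine ⟨ζ, max p₁ p₂, by rw [hζ]; positivity, ?_⟩
  intro p _ hp P hP hN3 B hNB hsp L hL Y hY
  by_contra hcon
  push Not at hcon
  have hp1 : p₁ ≤ p := (le_max_left _ _).trans hp
  have hp2 : p₂ ≤ p := (le_max_right _ _).trans hp
  have hpR : (1 : ℝ) ≤ (p : ℝ) := by
    have := (Fact.out : p.Prime).one_lt
    exact_mod_cast this.le
  have hp0 : (0 : ℝ) < (p : ℝ) := by linarith
  have hbig : 2 * C₁ * C < (p : ℝ) ^ (σ / 16) := by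
    have h1 : (2 * C₁ * C) ^ (1 / (σ / 16)) < (p : ℝ) := hp₂.trans_le (by exact_mod_cast hp2)
    have h2 : 0 ≤ 2 * C₁ * C := by positivity
    have h3 := Real.rpow_lt_rpow (Real.rpow_nonneg h2 _) h1 hω0
    rw [← Real.rpow_mul h2, one_div_mul_cancel hω0.ne', Real.rpow_one] at h3
    exact h3
  have hN1 : (1 : ℝ) ≤ ((P 1).card : ℝ) := by
    exact_mod_cast hP.card_pos (by norm_num : (0 : ℝ) ≤ 1)
  have hNp : ((P 1).card : ℝ) ≤ (p : ℝ) := by
    have h1 : (P 1).card ≤ Fintype.card (ZMod p) := Finset.card_le_univ _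
    rw [ZMod.card] at h1
    exact_mod_cast h1
  have hM1 : (1 : ℝ) ≤ (B.card : ℝ) := by
    have h1 : 0 < (B.card : ℝ) := by
      by_contra h2
      have h3 : (B.card : ℝ) = 0 := le_antisymm (not_lt.1 h2) (Nat.cast_nonneg _)
      rw [h3, mul_zero] at hNB
      linarith
    have h2 : 0 < B.card := by exact_mod_cast h1
    exact_mod_cast h2
  -- the translates
  have ht : ∀ ρ : ZMod p, ∃ t : ZMod p,
      gg (P 2) B ρ = (B.filter fun b => b - t ∈ P 2 + dil ρ (P 2)).card := by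
    intro ρ
    have h1 := Finset.exists_mem_eq_sup (Finset.univ : Finset (ZMod p)) Finset.univ_nonempty
      (fun t : ZMod p => (B.filter fun b => b - t ∈ P 2 + dil ρ (P 2)).card)
    obtain ⟨t, _, ht⟩ := h1
    exact ⟨t, ht⟩
  choose tt htt using ht
  set Bf : ZMod p → Finset (ZMod p) :=
    fun ρ => B.filter fun b => b - tt ρ ∈ P 2 + dil ρ (P 2) with hBf
  have hsub : ∀ y ∈ Y, Bf y ⊆ B := fun y _ => Finset.filter_subset _ _
  have hcard : ∀ y ∈ Y, (p : ℝ) ^ (-ζ) * (B.card : ℝ) ≤ ((Bf y).card : ℝ) := by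
    intro y hy
    have h1 := (hY y hy).2.2
    rw [htt y] at h1
    exact h1
  have hT1 := LVG_comb Y B Bf ((p : ℝ) ^ (-ζ) * (B.card : ℝ)) (by positivity) n hsub hcard
  have hG2 := hZ p hp1 P hP hN3 L hL Y (fun ρ hρ => ⟨(hY ρ hρ).1, (hY ρ hρ).2.1⟩)
  rw [Nat.add_sub_cancel] at hG2
  set bad : (Fin (n + 1) → ZMod p) → Prop := fun ρ =>
      C * ((P 1).card : ℝ) * (((P 1).card : ℝ) / L) ^ ((1 / 2 : ℝ) ^ n) *
        (p : ℝ) ^ (2 * (σ / 16)) < ((Zk P ρ 1).card : ℝ) with hbad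
  set D : ℝ := C₁ * (C * ((P 1).card : ℝ) * (((P 1).card : ℝ) / L) ^ ((1 / 2 : ℝ) ^ n) *
        (p : ℝ) ^ (2 * (σ / 16))) * ((p : ℝ) ^ (-σ) * ((P 1).card : ℝ)) / ((P 1).card : ℝ) with hD
  have hD0 : 0 ≤ D := by rw [hD]; positivity
  have hT2 : ∑ ρ ∈ Fintype.piFinset (fun _ : Fin (n + 1) => Y),
        ((B.filter fun b => ∀ i, b ∈ Bf (ρ i)).card : ℝ) ≤ (Y.card : ℝ) ^ (n + 1) * D +
      (B.card : ℝ) * (((Fintype.piFinset fun _ : Fin (n + 1) => Y).filter bad).card : ℝ) := by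
    have h1 : ∀ ρ ∈ Fintype.piFinset (fun _ : Fin (n + 1) => Y),
        ((B.filter fun b => ∀ i, b ∈ Bf (ρ i)).card : ℝ) ≤
          D + (B.card : ℝ) * (if bad ρ then 1 else 0) := by
      intro ρ hρ
      have hρY : ∀ i, ρ i ∈ Y := Fintype.mem_piFinset.1 hρ
      by_cases hb : bad ρ
      · rw [if_pos hb, mul_one]
        have h2 : ((B.filter fun b => ∀ i, b ∈ Bf (ρ i)).card : ℝ) ≤ (B.card : ℝ) := by
          exact_mod_cast Finset.card_filter_le _ _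
        linarith
      · rw [if_neg hb, mul_zero, add_zero]
        have h2 := LVG_tuple hPKC hDIL hCVR d (n + 1) (Nat.succ_pos n) P hP B _ hsp ρ
          (fun i => (hY _ (hρY i)).1) (B.filter fun b => ∀ i, b ∈ Bf (ρ i))
          (Finset.filter_subset _ _) (by
            intro i b hb b' hb'
            have h3 := (Finset.mem_filter.1 ((Finset.mem_filter.1 hb).2 i)).2
            have h4 := (Finset.mem_filter.1 ((Finset.mem_filter.1 hb').2 i)).2
            obtain ⟨x, hx, w, hw, hxw⟩ := Finset.mem_add.1 h3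
            obtain ⟨x', hx', w', hw', hxw'⟩ := Finset.mem_add.1 h4
            obtain ⟨e, he, rfl⟩ := Finset.mem_image.1 hw
            obtain ⟨e', he', rfl⟩ := Finset.mem_image.1 hw'
            refine Finset.mem_add.2 ⟨x - x', ?_, ρ i * (e - e'), ?_, ?_⟩
            · exact hP.mono (by norm_num) (hP.sub_mem hx hx')
            · exact Finset.mem_image.2 ⟨e - e', hP.mono (by norm_num) (hP.sub_mem he he'), rfl⟩
            · linear_combination hxw - hxw')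
        rw [hD, le_div_iff₀ (by linarith)]
        refine h2.trans ?_
        apply mul_le_mul_of_nonneg_right _ (by positivity)
        exact mul_le_mul_of_nonneg_left (not_lt.1 hb) (by positivity)
    calc _ ≤ ∑ ρ ∈ Fintype.piFinset (fun _ : Fin (n + 1) => Y),
          (D + (B.card : ℝ) * (if bad ρ then 1 else 0)) := Finset.sum_le_sum h1
      _ = _ := by
          rw [Finset.sum_add_distrib, Finset.sum_const, Fintype.card_piFinset_const, nsmul_eq_mul,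
            ← Finset.mul_sum, Finset.sum_boole, Nat.cast_pow]
  have hG0 : (0 : ℝ) ≤ (((Fintype.piFinset fun _ : Fin (n + 1) => Y).filter bad).card : ℝ) :=
    Nat.cast_nonneg _
  have hDN : D * ((P 1).card : ℝ) ≤ C₁ * (C * ((P 1).card : ℝ) *
      (((P 1).card : ℝ) / L) ^ ((1 / 2 : ℝ) ^ n) * (p : ℝ) ^ (2 * (σ / 16))) *
        ((p : ℝ) ^ (-σ) * ((P 1).card : ℝ)) := by
    rw [hD, div_mul_cancel₀ _ (by linarith : ((P 1).card : ℝ) ≠ 0)]
  exact LVG_fin (p : ℝ) ((P 1).card : ℝ) (B.card : ℝ) (Y.card : ℝ) L C C₁ σ (σ / 16) ζ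
    (σ / 16 / 4) ((1 / 2 : ℝ) ^ n) n hpR hN1 hNp hM1 hL hC hC₁1 hσ rfl rfl hζ (by positivity)
    hn.le hbig hNB hcon _ _ D hG0 hT1 hT2 hG2 hDN

end Pool.Agent.helper85.PG
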