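import Pool.Agent.helper85.PG.Spec

set_option autoImplicit false

namespace Pool.Agent.helper85.PG

open Module

theorem V_unit_pos (E : Type) [NormedAddCommGroup E] [NormedSpace ℝ E] [FiniteDimensional ℝ E]
    [MeasurableSpace E] [BorelSpace E] :
    (MeasureTheory.Measure.addHaar (Metric.ball (0 : E) 1) : ENNReal) ≠ 0 ∧
      (MeasureTheory.Measure.addHaar (Metric.ball (0 : E) 1) : ENNReal) ≠ ⊤ :=
  ⟨(Metric.measure_ball_pos _ _ one_pos).ne', MeasureTheory.measure_ball_lt_top.ne⟩

theorem V1 : V1_stmt := by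
  intro E _ _ _ T δ R hδ hR hT hsep
  borelize E
  let μ : MeasureTheory.Measure E := MeasureTheory.Measure.addHaar
  obtain ⟨hu0, hu1⟩ := V_unit_pos E
  have hδ2 : 0 < δ / 2 := by linarith
  have D : Set.Pairwise (T : Set E) (Function.onFun Disjoint fun c => Metric.ball (c : E) (δ / 2)) := by
    rintro c hc d hd hcd
    apply Metric.ball_disjoint_ball
    rw [dist_eq_norm, add_halves]
    exact hsep c hc d hd hcd
  have A_subset : (⋃ c ∈ T, Metric.ball (c : E) (δ / 2)) ⊆ Metric.ball (0 : E) (R + δ / 2) := by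
    refine Set.iUnion₂_subset fun x hx => ?_
    apply Metric.ball_subset_ball'
    rw [dist_zero_right]
    have := hT x hx
    linarith
  have hRp : 0 < R + δ / 2 := by linarith
  have I : (T.card : ENNReal) * ENNReal.ofReal ((δ / 2) ^ finrank ℝ E) * μ (Metric.ball 0 1) ≤
      ENNReal.ofReal ((R + δ / 2) ^ finrank ℝ E) * μ (Metric.ball 0 1) :=
    calc (T.card : ENNReal) * ENNReal.ofReal ((δ / 2) ^ finrank ℝ E) * μ (Metric.ball 0 1)
        = μ (⋃ c ∈ T, Metric.ball (c : E) (δ / 2)) := by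
          rw [MeasureTheory.measure_biUnion_finset D (fun c _ => measurableSet_ball)]
          have e : ∀ c : E, μ (Metric.ball c (δ / 2)) =
              ENNReal.ofReal ((δ / 2) ^ finrank ℝ E) * μ (Metric.ball 0 1) :=
            fun c => MeasureTheory.Measure.addHaar_ball_of_pos μ c hδ2
          simp only [e, Finset.sum_const, nsmul_eq_mul, mul_assoc]
      _ ≤ μ (Metric.ball (0 : E) (R + δ / 2)) := MeasureTheory.measure_mono A_subset
      _ = ENNReal.ofReal ((R + δ / 2) ^ finrank ℝ E) * μ (Metric.ball 0 1) :=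
          MeasureTheory.Measure.addHaar_ball_of_pos μ 0 hRp
  have J : (T.card : ENNReal) * ENNReal.ofReal ((δ / 2) ^ finrank ℝ E) ≤
      ENNReal.ofReal ((R + δ / 2) ^ finrank ℝ E) :=
    (ENNReal.mul_le_mul_iff_left hu0 hu1).1 I
  have hp : 0 < (δ / 2) ^ finrank ℝ E := pow_pos hδ2 _
  have J' : (T.card : ℝ) * (δ / 2) ^ finrank ℝ E ≤ (R + δ / 2) ^ finrank ℝ E := by
    have h1 := ENNReal.toReal_mono ENNReal.ofReal_ne_top J
    rw [ENNReal.toReal_mul, ENNReal.toReal_natCast, ENNReal.toReal_ofReal hp.le,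
      ENNReal.toReal_ofReal (pow_nonneg hRp.le _)] at h1
    exact h1
  have e2 : (1 + 2 * R / δ) ^ finrank ℝ E * (δ / 2) ^ finrank ℝ E = (R + δ / 2) ^ finrank ℝ E := by
    rw [← mul_pow]
    congr 1
    field_simp
    ring
  rw [← e2] at J'
  exact le_of_mul_le_mul_right J' hp

theorem V2 : V2_stmt := by
  classical
  intro E _ _ _ δ R hδ hR
  set P : ℕ → Prop := fun k => ∃ T : Finset E, T.card = k ∧ (∀ x ∈ T, ‖x‖ ≤ R) ∧
    (∀ x ∈ T, ∀ y ∈ T, x ≠ y → δ ≤ ‖x - y‖) with hP
  set N : ℕ := ⌊(1 + 2 * R / δ) ^ finrank ℝ E⌋₊ with hN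
  have hb : ∀ k, P k → k ≤ N := by
    rintro k ⟨T, hk, hT, hs⟩
    rw [← hk]
    exact Nat.le_floor (V1 E T δ R hδ hR.le hT hs)
  have h0 : P 0 := ⟨∅, rfl, fun x hx => absurd hx (Finset.notMem_empty x),
    fun x hx => absurd hx (Finset.notMem_empty x)⟩
  have hk : P (Nat.findGreatest P N) := Nat.findGreatest_spec (Nat.zero_le N) h0
  have hmax : ¬ P (Nat.findGreatest P N + 1) := by
    intro h
    have h1 := Nat.le_findGreatest (hb _ h) h
    omega
  obtain ⟨T, hTk, hT, hs⟩ := hk
  refine ⟨T, hT, hs, ?_⟩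
  have hcov : Metric.ball (0 : E) R ⊆ ⋃ c ∈ T, Metric.ball (c : E) δ := by
    intro z hz
    rw [mem_ball_zero_iff] at hz
    by_contra hzn
    have hfar : ∀ x ∈ T, δ ≤ ‖z - x‖ := by
      intro x hx
      by_contra hlt
      apply hzn
      rw [Set.mem_iUnion₂]
      refine ⟨x, hx, ?_⟩
      rw [Metric.mem_ball, dist_eq_norm]
      exact not_le.1 hlt
    have hzT : z ∉ T := by
      intro h
      have := hfar z h
      rw [sub_self, norm_zero] at this
      linarith
    apply hmax
    refine ⟨insert z T, ?_, ?_, ?_⟩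
    · rw [Finset.card_insert_of_notMem hzT, hTk]
    · intro x hx
      rcases Finset.mem_insert.1 hx with h | h
      · rw [h]; exact hz.le
      · exact hT x h
    · intro x hx y hy hxy
      rcases Finset.mem_insert.1 hx with h | h
      · rcases Finset.mem_insert.1 hy with h' | h'
        · exact absurd (h.trans h'.symm) hxy
        · rw [h]; exact hfar y h'
      · rcases Finset.mem_insert.1 hy with h' | h'
        · rw [h', norm_sub_rev]; exact hfar x h
        · exact hs x h y h' hxy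
  borelize E
  let μ : MeasureTheory.Measure E := MeasureTheory.Measure.addHaar
  obtain ⟨hu0, hu1⟩ := V_unit_pos E
  have I : ENNReal.ofReal (R ^ finrank ℝ E) * μ (Metric.ball 0 1) ≤
      (T.card : ENNReal) * ENNReal.ofReal (δ ^ finrank ℝ E) * μ (Metric.ball 0 1) :=
    calc ENNReal.ofReal (R ^ finrank ℝ E) * μ (Metric.ball 0 1) = μ (Metric.ball (0 : E) R) :=
          (MeasureTheory.Measure.addHaar_ball_of_pos μ 0 hR).symm
      _ ≤ μ (⋃ c ∈ T, Metric.ball (c : E) δ) := MeasureTheory.measure_mono hcov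
      _ ≤ ∑ c ∈ T, μ (Metric.ball (c : E) δ) := MeasureTheory.measure_biUnion_finset_le T _
      _ = (T.card : ENNReal) * ENNReal.ofReal (δ ^ finrank ℝ E) * μ (Metric.ball 0 1) := by
          have e : ∀ c : E, μ (Metric.ball c δ) =
              ENNReal.ofReal (δ ^ finrank ℝ E) * μ (Metric.ball 0 1) :=
            fun c => MeasureTheory.Measure.addHaar_ball_of_pos μ c hδ
          simp only [e, Finset.sum_const, nsmul_eq_mul, mul_assoc]
  have J := (ENNReal.mul_le_mul_iff_left hu0 hu1).1 I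
  have hp : 0 < δ ^ finrank ℝ E := pow_pos hδ _
  have J' : R ^ finrank ℝ E ≤ (T.card : ℝ) * δ ^ finrank ℝ E := by
    have h1 := ENNReal.toReal_mono (ENNReal.mul_ne_top (ENNReal.natCast_ne_top _) ENNReal.ofReal_ne_top) J
    rw [ENNReal.toReal_mul, ENNReal.toReal_natCast, ENNReal.toReal_ofReal hp.le,
      ENNReal.toReal_ofReal (pow_nonneg hR.le _)] at h1
    exact h1
  rw [div_pow, div_le_iff₀ hp]
  exact J'

end Pool.Agent.helper85.PG
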