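import Pool.Agent.helper33.PG.Spec

/-!
# PG, row EVA: sizes of the values
-/

set_option autoImplicit false

namespace Pool.Agent.PG

open Polynomial Finset

theorem EVA_aux (c : ℕ → ℤ) (x : ℤ) (hx : x ≠ 0) (a : ℕ) (L : ℤ) (hL : ∑ j ∈ range (a + 1), |c j| ≤ L) :
    |∑ j ∈ range (a + 1), c j * x ^ j| ≤ L * |x| ^ a := by
  have hx1 : 1 ≤ |x| := Int.one_le_abs hx
  calc |∑ j ∈ range (a + 1), c j * x ^ j| ≤ ∑ j ∈ range (a + 1), |c j * x ^ j| := Finset.abs_sum_le_sum_abs _ _
    _ ≤ ∑ j ∈ range (a + 1), |c j| * |x| ^ a := by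
        refine Finset.sum_le_sum fun j hj => ?_
        rw [abs_mul, abs_pow]
        have : j ≤ a := by rw [Finset.mem_range] at hj; omega
        exact mul_le_mul_of_nonneg_left (pow_le_pow_right₀ hx1 this) (abs_nonneg _)
    _ = (∑ j ∈ range (a + 1), |c j|) * |x| ^ a := by rw [Finset.sum_mul]
    _ ≤ L * |x| ^ a := mul_le_mul_of_nonneg_right hL (by positivity)

theorem EVA (hLON : LON_stmt) : EVA_stmt := by
  intro q a b x haq hx
  have h := hLON q a b haq
  constructor
  · have e : (A q a b).eval x = ∑ j ∈ range (a + 1), (S q a b).coeff j * x ^ j := by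
      unfold A
      rw [eval_finsetSum]
      refine Finset.sum_congr rfl fun j _ => ?_
      rw [eval_mul, eval_C, eval_pow, eval_X]
    rw [e]
    refine EVA_aux _ x hx a _ (le_trans ?_ h)
    exact Finset.sum_le_sum_of_subset_of_nonneg (Finset.range_mono (by omega)) fun _ _ _ => abs_nonneg _
  · have e : (B q a b).eval x = ∑ j ∈ range (b + 1), (S q a b).coeff (q + j) * x ^ j := by
      unfold B
      rw [eval_finsetSum]
      refine Finset.sum_congr rfl fun j _ => ?_
      rw [eval_mul, eval_C, eval_pow, eval_X]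
    rw [e]
    refine EVA_aux (fun j => (S q a b).coeff (q + j)) x hx b _ (le_trans ?_ h)
    rw [show q + b + 1 = q + (b + 1) by omega, Finset.sum_range_add _ q (b + 1)]
    have : 0 ≤ ∑ j ∈ range q, |(S q a b).coeff j| := Finset.sum_nonneg fun _ _ => abs_nonneg _
    linarith

end Pool.Agent.PG
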