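import Pool.Agent.helper33.PG.Spec

/-!
# PG, row LDA: the coefficient of `X^a`
-/

set_option autoImplicit false

namespace Pool.Agent.PG

open Polynomial Finset

/-- the polynomial -/
noncomputable def LDA_h (q a b : ℕ) : ℤ[X] :=
  (∏ s ∈ range b, (X + C ((s : ℤ) + 1))) * ∏ s ∈ range a, (C ((q : ℤ) - 1 - s) - X)

theorem LDA_eval (q a b : ℕ) (t : ℤ) : (LDA_h q a b).eval t =
    (∏ s ∈ range b, (t + ((s : ℤ) + 1))) * ∏ s ∈ range a, (((q : ℤ) - 1 - s) - t) := by
  unfold LDA_h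
  rw [eval_mul, eval_prod, eval_prod]
  congr 1
  · refine Finset.prod_congr rfl fun s _ => ?_
    rw [eval_add, eval_X, eval_C]
  · refine Finset.prod_congr rfl fun s _ => ?_
    rw [eval_sub, eval_X, eval_C]

theorem LDA_d1 (s : ℕ) : (X + C ((s : ℤ) + 1) : ℤ[X]).natDegree ≤ 1 := (natDegree_X_add_C _).le

theorem LDA_d2 (q s : ℕ) : (C ((q : ℤ) - 1 - s) - X : ℤ[X]).natDegree ≤ 1 := by
  refine (natDegree_sub_le _ _).trans ?_
  rw [natDegree_C, natDegree_X]
  exact le_rfl

theorem LDA_dp (f : ℕ → ℤ[X]) (hf : ∀ s, (f s).natDegree ≤ 1) (b : ℕ) : (∏ s ∈ range b, f s).natDegree ≤ b := by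
  have h1 := natDegree_prod_le (range b) f
  have h2 : ∑ s ∈ range b, (f s).natDegree ≤ ∑ s ∈ range b, (1 : ℕ) := Finset.sum_le_sum fun s _ => hf s
  rw [Finset.sum_const, Finset.card_range, smul_eq_mul, mul_one] at h2
  exact h1.trans h2

theorem LDA_deg (q a b : ℕ) : (LDA_h q a b).degree < ((a + b + 1 : ℕ) : WithBot ℕ) := by
  have h1 : (LDA_h q a b).natDegree ≤ a + b := by
    unfold LDA_h
    have e0 := natDegree_mul_le (p := ∏ s ∈ range b, (X + C ((s : ℤ) + 1) : ℤ[X]))
      (q := ∏ s ∈ range a, (C ((q : ℤ) - 1 - s) - X : ℤ[X]))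
    have e1 := LDA_dp (fun s => (X + C ((s : ℤ) + 1) : ℤ[X])) LDA_d1 b
    have e2 := LDA_dp (fun s => (C ((q : ℤ) - 1 - s) - X : ℤ[X])) (LDA_d2 q) a
    omega
  have h2 : (LDA_h q a b).natDegree < a + b + 1 := by omega
  exact lt_of_le_of_lt degree_le_natDegree (Nat.cast_lt.mpr h2)

theorem LDA_desc (m : ℕ) : ∀ a : ℕ, ∏ s ∈ range a, ((m : ℤ) - s) = (m.descFactorial a : ℤ)
  | 0 => by simp
  | (a + 1) => by
    rw [Finset.prod_range_succ, LDA_desc m a, Nat.descFactorial_succ, mul_comm]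
    by_cases h : a ≤ m
    · rw [Nat.cast_mul, Nat.cast_sub h]
    · rw [Nat.descFactorial_of_lt (by omega)]
      simp

theorem LDA_nat (q a b t : ℕ) (ht : t < q) : (LDA_h q a b).eval (t : ℤ) =
    (a.factorial : ℤ) * (b.factorial : ℤ) * gco q a b t := by
  rw [LDA_eval]
  have e1 : ∏ s ∈ range b, ((t : ℤ) + ((s : ℤ) + 1)) = (b.factorial : ℤ) * ((b + t).choose b : ℤ) := by
    have := Nat.ascFactorial_eq_factorial_mul_choose t b
    rw [Nat.ascFactorial_eq_prod_range, add_comm t b] at this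
    rw [← Nat.cast_mul, ← this, Nat.cast_prod]
    refine Finset.prod_congr rfl fun s _ => ?_
    push_cast
    ring
  have e2 : ∏ s ∈ range a, (((q : ℤ) - 1 - s) - t) = (a.factorial : ℤ) * ((q - 1 - t).choose a : ℤ) := by
    rw [← Nat.cast_mul, ← Nat.descFactorial_eq_factorial_mul_choose, ← LDA_desc]
    refine Finset.prod_congr rfl fun s _ => ?_
    have : ((q - 1 - t : ℕ) : ℤ) = (q : ℤ) - 1 - t := by omega
    rw [this]
    ring
  rw [e1, e2]
  unfold gco
  ring

theorem LDA_neg (q a b : ℕ) (t : ℤ) (h1 : t < 0) (h2 : -(b : ℤ) ≤ t) : (LDA_h q a b).eval t = 0 := by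
  rw [LDA_eval, Finset.prod_eq_zero (i := (-t - 1).toNat) (by rw [Finset.mem_range]; omega) (by omega), zero_mul]

theorem LDA_last (q a b : ℕ) : (LDA_h q a b).eval (-(b : ℤ) - 1) =
    (-1) ^ b * (b.factorial : ℤ) * ((a.factorial : ℤ) * ((q + b).choose a : ℤ)) := by
  rw [LDA_eval]
  congr 1
  · have e : ∀ b : ℕ, ∏ s ∈ range b, ((s : ℤ) - b) = (-1) ^ b * (b.factorial : ℤ) := by
      intro b
      rw [← Nat.descFactorial_self, ← LDA_desc, ← Finset.card_range b, ← Finset.prod_const, Finset.card_range,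
        ← Finset.prod_mul_distrib]
      refine Finset.prod_congr rfl fun s _ => by ring
    rw [← e b]
    refine Finset.prod_congr rfl fun s _ => by ring
  · rw [← Nat.cast_mul, ← Nat.descFactorial_eq_factorial_mul_choose, ← LDA_desc]
    refine Finset.prod_congr rfl fun s _ => ?_
    push_cast
    ring

theorem LDA (hFDZ : FDZ_stmt) (hCOF : COF_stmt) : LDA_stmt := by
  intro q a b haq
  have h1 := hFDZ (a + b + 1) (LDA_h q a b) (LDA_deg q a b) (a : ℤ)
  rw [Finset.sum_range_succ] at h1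
  have h2 := hCOF q a b a
  rw [Finset.sum_range_succ, if_neg (by omega), add_zero] at h2
  have hfac : (a.factorial : ℤ) * (b.factorial : ℤ) ≠ 0 := by positivity
  have h3 : ∑ i ∈ range (a + b + 1), (-1) ^ i * ((a + b + 1).choose i : ℤ) * (LDA_h q a b).eval ((a : ℤ) - i) =
      (a.factorial : ℤ) * (b.factorial : ℤ) * (S q a b).coeff a := by
    rw [h2, Finset.mul_sum]
    refine Finset.sum_congr rfl fun i hi => ?_
    rw [Finset.mem_range] at hi
    by_cases hia : i ≤ a
    · have e : ((a : ℤ) - i) = ((a - i : ℕ) : ℤ) := by omega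
      rw [e, LDA_nat q a b (a - i) (by omega)]
      by_cases h5 : a - i < q - a
      · rw [if_pos ⟨hia, h5⟩]
        ring
      · rw [if_neg (fun h => h5 h.2)]
        have : gco q a b (a - i) = 0 := by
          unfold gco
          rw [Nat.choose_eq_zero_of_lt (show q - 1 - (a - i) < a by omega)]
          simp
        rw [this]
        ring
    · rw [if_neg (fun h => hia h.1), LDA_neg q a b _ (by omega) (by omega)]
      ring
  rw [h3] at h1
  have e4 : ((a : ℤ) - ((a + b + 1 : ℕ) : ℤ)) = -(b : ℤ) - 1 := by push_cast; ring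
  rw [e4, LDA_last, Nat.choose_self] at h1
  have hb : ((-1 : ℤ) ^ b) * (-1) ^ b = 1 := by
    rw [← mul_pow]
    simp
  have h5 : (a.factorial : ℤ) * (b.factorial : ℤ) * ((S q a b).coeff a) =
      (a.factorial : ℤ) * (b.factorial : ℤ) * ((-1) ^ a * ((q + b).choose a : ℤ)) := by
    have e5 : ((-1 : ℤ)) ^ (a + b + 1) = -((-1) ^ a * (-1) ^ b) := by
      rw [pow_succ, pow_add]
      ring
    rw [e5] at h1
    linear_combination h1 + ((-1) ^ a * (a.factorial : ℤ) * (b.factorial : ℤ) * ((q + b).choose a : ℤ)) * hb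
  exact mul_left_cancel₀ hfac h5

end Pool.Agent.PG
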