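import Pool.Agent.helper85.PG.Spec2
import Pool.Agent.helper82.Weil.M

set_option autoImplicit false

namespace Pool.Agent.helper85.PG

open Pool.Agent.helper82.Weil

/-- The `2k`-th moment of the incomplete sums with coefficients. -/
theorem TMO_gen {F : Type*} [Field F] [Fintype F] (χ : MulChar F ℂ) (hχ : χ ≠ 1) (k : ℕ) (A : Finset F)
    (c : F → ℂ) (hc : ∀ a, ‖c a‖ ≤ 1) :
    ∑ u : F, ‖∑ a ∈ A, c a * χ (a + u)‖ ^ (2 * k) ≤
      (k : ℝ) ^ (2 * k) * (A.card : ℝ) ^ k * (Fintype.card F : ℝ) +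
        (A.card : ℝ) ^ (2 * k) * (2 * k * Real.sqrt (Fintype.card F)) := by
  classical
  have h1 : ((∑ u : F, ‖∑ a ∈ A, c a * χ (a + u)‖ ^ (2 * k) : ℝ) : ℂ) =
      ∑ x ∈ Fintype.piFinset fun _ : Fin k => A, ∑ y ∈ Fintype.piFinset fun _ : Fin k => A,
        ((∏ i, c (x i)) * (starRingEnd ℂ) (∏ i, c (y i))) * ZZ χ x y := by
    push_cast
    have h2 : ∀ u : F, ((‖∑ a ∈ A, c a * χ (a + u)‖ : ℝ) : ℂ) ^ (2 * k) =
        ∑ x ∈ Fintype.piFinset fun _ : Fin k => A, ∑ y ∈ Fintype.piFinset fun _ : Fin k => A,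
          ((∏ i, c (x i)) * (starRingEnd ℂ) (∏ i, c (y i))) *
            ((∏ i, χ (x i + u)) * (starRingEnd ℂ) (∏ i, χ (y i + u))) := by
      intro u
      rw [pow_mul, ← Complex.mul_conj', mul_pow, ← map_pow, Finset.sum_pow', map_sum,
        Finset.sum_mul_sum]
      refine Finset.sum_congr rfl fun x _ => Finset.sum_congr rfl fun y _ => ?_
      rw [Finset.prod_mul_distrib, Finset.prod_mul_distrib, map_mul]
      ring
    simp_rw [h2]
    rw [Finset.sum_comm]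
    refine Finset.sum_congr rfl fun x _ => ?_
    rw [Finset.sum_comm]
    refine Finset.sum_congr rfl fun y _ => ?_
    unfold ZZ
    rw [Finset.mul_sum]
  have h3 : ∑ u : F, ‖∑ a ∈ A, c a * χ (a + u)‖ ^ (2 * k) =
      ‖((∑ u : F, ‖∑ a ∈ A, c a * χ (a + u)‖ ^ (2 * k) : ℝ) : ℂ)‖ := by
    rw [Complex.norm_real, Real.norm_eq_abs, abs_of_nonneg]
    exact Finset.sum_nonneg fun _ _ => by positivity
  rw [h3, h1]
  have hprod : ∀ x : Fin k → F, ‖∏ i, c (x i)‖ ≤ 1 := by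
    intro x
    rw [norm_prod]
    exact Finset.prod_le_one (fun _ _ => norm_nonneg _) (fun _ _ => hc _)
  have hterm : ∀ x y : Fin k → F,
      ‖((∏ i, c (x i)) * (starRingEnd ℂ) (∏ i, c (y i))) * ZZ χ x y‖ ≤ ‖ZZ χ x y‖ := by
    intro x y
    rw [norm_mul, norm_mul, RCLike.norm_conj]
    have h4 : ‖∏ i, c (x i)‖ * ‖∏ i, c (y i)‖ ≤ 1 :=
      mul_le_one₀ (hprod x) (norm_nonneg _) (hprod y)
    calc ‖∏ i, c (x i)‖ * ‖∏ i, c (y i)‖ * ‖ZZ χ x y‖ ≤ 1 * ‖ZZ χ x y‖ :=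
          mul_le_mul_of_nonneg_right h4 (norm_nonneg _)
      _ = ‖ZZ χ x y‖ := one_mul _
  refine (norm_sum_le _ _).trans ?_
  refine (Finset.sum_le_sum fun x _ => norm_sum_le _ _).trans ?_
  refine (Finset.sum_le_sum fun x _ => Finset.sum_le_sum fun y _ => hterm x y).trans ?_
  have := sum_ZZ_pow χ hχ k 1 A
  simpa using this

theorem TMO : TMO_stmt := by
  intro p _ χ hχ k A c hc
  have h := TMO_gen χ hχ k A c hc
  rw [ZMod.card] at h
  exact h

end Pool.Agent.helper85.PG
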